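import Mathlib
import Pool.Agent.H65R4.KU

set_option autoImplicit false
set_option linter.unusedSectionVars false

open Set Filter Topology MeasureTheory

namespace Pool.Agent.W6h79.Jump

/-- The `G`-jump of a relation `E` on `X`: the relation on `G → X` which holds of `α`, `β` if
there is `g` with `E (α (g⁻¹ h)) (β h)` for all `h`. -/
def GJump (G : Type) {X : Type} [Group G] (E : X → X → Prop) : (G → X) → (G → X) → Prop :=
  fun α β => ∃ g : G, ∀ h : G, E (α (g⁻¹ * h)) (β h)

section

variable {G H : Type} [Group G]

/-- the action of `H → G` on `H → G → Bool` by shifts of the single coordinates -/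
def act (γ : H → G) (x : H → G → Bool) : H → G → Bool := fun h g => x h ((γ h)⁻¹ * g)

theorem act_mul (γ δ : H → G) (x : H → G → Bool) : act (γ * δ) x = act γ (act δ x) := by
  funext h g
  simp [act, mul_assoc]

theorem act_one (x : H → G → Bool) : act (1 : H → G) x = x := by
  funext h g
  simp [act]

theorem continuous_act (γ : H → G) : Continuous (act γ) := by
  refine continuous_pi fun h => continuous_pi fun g => ?_
  exact (continuous_apply _).comp (continuous_apply h)

/-- the action as a homeomorphism -/
def actHomeo (γ : H → G) : (H → G → Bool) ≃ₜ (H → G → Bool) where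
  toFun := act γ
  invFun := act γ⁻¹
  left_inv x := by rw [← act_mul, inv_mul_cancel, act_one]
  right_inv x := by rw [← act_mul, mul_inv_cancel, act_one]
  continuous_toFun := continuous_act γ
  continuous_invFun := continuous_act γ⁻¹

theorem ev_act (γ : H → G) {P : (H → G → Bool) → Prop}
    (h : ∀ᶠ x in residual (H → G → Bool), P x) :
    ∀ᶠ x in residual (H → G → Bool), P (act γ x) :=
  (tendsto_residual_of_isOpenMap (continuous_act γ) (actHomeo γ).isOpenMap).eventually h

theorem act_rel [Group H] (γ : H → G) (x : H → G → Bool) :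
    GJump H (GJump G (Eq : Bool → Bool → Prop)) x (act γ x) := by
  refine ⟨1, fun h => ⟨γ h, fun g => ?_⟩⟩
  simp [act]

/-- cylinders -/
def cyl (x : H → G → Bool) (S : Finset (H × G)) : Set (H → G → Bool) :=
  {y | ∀ p ∈ S, y p.1 p.2 = x p.1 p.2}

theorem isOpen_cyl (x : H → G → Bool) (S : Finset (H × G)) : IsOpen (cyl x S) := by
  have : cyl x S = ⋂ p ∈ S, {y : H → G → Bool | y p.1 p.2 = x p.1 p.2} := by
    ext y
    simp [cyl]
  rw [this]
  refine isOpen_biInter_finset fun p _ => ?_
  have hc : Continuous fun y : H → G → Bool => y p.1 p.2 :=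
    (continuous_apply p.2).comp (continuous_apply p.1)
  exact (isOpen_discrete ({x p.1 p.2} : Set Bool)).preimage hc

theorem mem_cyl_self (x : H → G → Bool) (S : Finset (H × G)) : x ∈ cyl x S := fun _ _ => rfl

theorem exists_cyl {U : Set (H → G → Bool)} (hU : IsOpen U) {x : H → G → Bool} (hx : x ∈ U) :
    ∃ S : Finset (H × G), cyl x S ⊆ U := by
  have hc : Continuous fun (y : H × G → Bool) => (fun h g => y (h, g) : H → G → Bool) :=
    continuous_pi fun h => continuous_pi fun g => continuous_apply _
  have hx' : (fun p : H × G => x p.1 p.2) ∈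
      (fun (y : H × G → Bool) => (fun h g => y (h, g) : H → G → Bool)) ⁻¹' U := hx
  obtain ⟨I, u, hu, hsub⟩ := isOpen_pi_iff.mp (hU.preimage hc) _ hx'
  refine ⟨I, fun y hy => ?_⟩
  have h1 : (fun p : H × G => y p.1 p.2) ∈ (I : Set (H × G)).pi u := by
    intro p hp
    have h2 := hy p hp
    have h3 := (hu p hp).2
    change y p.1 p.2 ∈ u p
    rw [h2]
    exact h3
  exact hsub h1

/-- negate the coordinate `k` -/
noncomputable def neg (k : H) (x : H → G → Bool) : H → G → Bool := by
  classical
  exact Function.update x k (fun g => !(x k g))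

theorem neg_same (k : H) (x : H → G → Bool) (g : G) : neg k x k g = !(x k g) := by
  classical
  simp [neg]

theorem neg_ne {k h : H} (hh : h ≠ k) (x : H → G → Bool) (g : G) : neg k x h g = x h g := by
  classical
  simp [neg, hh]

theorem neg_neg' (k : H) (x : H → G → Bool) : neg k (neg k x) = x := by
  funext h g
  by_cases hh : h = k
  · subst hh
    rw [neg_same, neg_same, Bool.not_not]
  · rw [neg_ne hh, neg_ne hh]

theorem continuous_neg' (k : H) : Continuous (neg k : (H → G → Bool) → (H → G → Bool)) := by
  refine continuous_pi fun h => continuous_pi fun g => ?_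
  by_cases hh : h = k
  · subst hh
    have : (fun x : H → G → Bool => neg h x h g) = fun x => !(x h g) := by
      funext x
      exact neg_same h x g
    rw [this]
    exact (continuous_of_discreteTopology (f := Bool.not)).comp
      ((continuous_apply g).comp (continuous_apply h))
  · have : (fun x : H → G → Bool => neg k x h g) = fun x => x h g := by
      funext x
      exact neg_ne hh x g
    rw [this]
    exact (continuous_apply g).comp (continuous_apply h)

/-- the negation as a homeomorphism -/
noncomputable def negHomeo (k : H) : (H → G → Bool) ≃ₜ (H → G → Bool) where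
  toFun := neg k
  invFun := neg k
  left_inv := neg_neg' k
  right_inv := neg_neg' k
  continuous_toFun := continuous_neg' k
  continuous_invFun := continuous_neg' k

theorem ev_neg (k : H) {P : (H → G → Bool) → Prop}
    (h : ∀ᶠ x in residual (H → G → Bool), P x) :
    ∀ᶠ x in residual (H → G → Bool), P (neg k x) :=
  (tendsto_residual_of_isOpenMap (continuous_neg' k) (negHomeo k).isOpenMap).eventually h

instance baireZ [Countable G] [Countable H] : BaireSpace (H → G → Bool) := by
  have : TopologicalSpace.IsCompletelyMetrizableSpace (G → Bool) :=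
    TopologicalSpace.IsCompletelyMetrizableSpace.pi_countable
  have : TopologicalSpace.IsCompletelyMetrizableSpace (H → G → Bool) :=
    TopologicalSpace.IsCompletelyMetrizableSpace.pi_countable
  infer_instance

theorem exists_of_residual [Countable G] [Countable H] {P : (H → G → Bool) → Prop}
    (h : ∀ᶠ z in residual (H → G → Bool), P z)
    {U : Set (H → G → Bool)} (hU : IsOpen U) (hne : U.Nonempty) : ∃ z ∈ U, P z := by
  obtain ⟨z, hz1, hz2⟩ := (dense_of_mem_residual h).inter_open_nonempty U hU hne
  exact ⟨z, hz1, hz2⟩

/-- For generic `x`, `x` and its negation at `k` are not related. -/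
theorem generic_not_rel [Group H] [Countable G] [Infinite G] [Countable H] (k : H) :
    ∀ᶠ x in residual (H → G → Bool), ¬ GJump H (GJump G (Eq : Bool → Bool → Prop)) x (neg k x) := by
  classical
  have key : ∀ (h : H) (g : G), ∀ᶠ x in residual (H → G → Bool),
      ∃ g' : G, x (h⁻¹ * k) (g⁻¹ * g') = x k g' := by
    intro h g
    refine residual_of_dense_open ?_ ?_
    · have : {x : H → G → Bool | ∃ g' : G, x (h⁻¹ * k) (g⁻¹ * g') = x k g'} =
          ⋃ g' : G, {x : H → G → Bool | x (h⁻¹ * k) (g⁻¹ * g') = x k g'} := by
        ext x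
        simp
      rw [this]
      refine isOpen_iUnion fun g' => ?_
      have hc : Continuous fun x : H → G → Bool => (x (h⁻¹ * k) (g⁻¹ * g'), x k g') :=
        ((continuous_apply _).comp (continuous_apply _)).prodMk
          ((continuous_apply _).comp (continuous_apply _))
      exact (isOpen_discrete {p : Bool × Bool | p.1 = p.2}).preimage hc
    · rw [dense_iff_inter_open]
      rintro U hU ⟨z, hz⟩
      obtain ⟨S, hS⟩ := exists_cyl hU hz
      obtain ⟨g', hg'⟩ := Infinite.exists_notMem_finset
        ((S.image fun p => p.2) ∪ (S.image fun p => g * p.2))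
      have h1 : (k, g') ∉ S := fun hh => hg' (Finset.mem_union_left _
        (Finset.mem_image.2 ⟨_, hh, rfl⟩))
      have h2 : (h⁻¹ * k, g⁻¹ * g') ∉ S := fun hh => hg' (Finset.mem_union_right _
        (Finset.mem_image.2 ⟨_, hh, by simp⟩))
      let y : H → G → Bool := fun a b =>
        if (a, b) = (k, g') ∨ (a, b) = (h⁻¹ * k, g⁻¹ * g') then true else z a b
      refine ⟨y, hS ?_, g', ?_⟩
      · intro p hp
        have h3 : ¬ ((p.1, p.2) = (k, g') ∨ (p.1, p.2) = (h⁻¹ * k, g⁻¹ * g')) := by
          rintro (h4 | h4)
          · rw [← h4] at h1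
            exact h1 hp
          · rw [← h4] at h2
            exact h2 hp
        simp only [y]
        rw [if_neg h3]
      · simp [y]
  have key2 : ∀ᶠ x in residual (H → G → Bool), ∀ (h : H) (g : G),
      ∃ g' : G, x (h⁻¹ * k) (g⁻¹ * g') = x k g' := by
    rw [eventually_countable_forall]
    intro h
    rw [eventually_countable_forall]
    exact key h
  filter_upwards [key2] with x hx
  rintro ⟨h, hh⟩
  obtain ⟨g, hg⟩ := hh k
  obtain ⟨g', hg'⟩ := hx h g
  have h1 := hg g'
  rw [neg_same, hg'] at h1
  cases h2 : x k g' <;> simp [h2] at h1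

/-- If a measurable function on the group `H → G` has countable range then it is locally constant
at almost all points, so for almost all `γ` it does not change if `γ` is multiplied by an element
supported at one coordinate outside of a finite set. -/
theorem locally_constant [Countable G] [Countable H] [TopologicalSpace G] [DiscreteTopology G]
    [MeasurableSpace G] [BorelSpace G] [DecidableEq H] (φ : (H → G) → ℝ) (hφ : Measurable φ)
    (hc : (range φ).Countable) :
    ∀ᶠ γ in residual (H → G), ∃ A : Finset H, ∀ h ∉ A, ∀ g : G,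
      φ (Pi.mulSingle h g * γ) = φ γ := by
  have hU : ∀ r : ℝ, ∃ U : Set (H → G), IsOpen U ∧ φ ⁻¹' {r} =ᶠ[residual (H → G)] U := by
    intro r
    exact ((hφ (measurableSet_singleton r)).baireMeasurableSet).residualEq_isOpen
  choose U hUo hU using hU
  have h1 : ∀ᶠ γ in residual (H → G), ∀ r ∈ range φ, (γ ∈ φ ⁻¹' {r} ↔ γ ∈ U r) := by
    rw [eventually_countable_ball hc]
    intro r _
    filter_upwards [hU r] with γ hγ
    exact iff_of_eq hγ
  have hmul : ∀ s : H → G, Continuous (fun γ : H → G => s * γ) := by
    intro s
    refine continuous_pi fun h => ?_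
    exact (continuous_of_discreteTopology (f := fun a : G => s h * a)).comp (continuous_apply h)
  have hev : ∀ (s : H → G) {P : (H → G) → Prop}, (∀ᶠ γ in residual (H → G), P γ) →
      ∀ᶠ γ in residual (H → G), P (s * γ) := by
    intro s P hP
    let e : (H → G) ≃ₜ (H → G) :=
      { toFun := fun γ => s * γ
        invFun := fun γ => s⁻¹ * γ
        left_inv := fun γ => by simp
        right_inv := fun γ => by simp
        continuous_toFun := hmul s
        continuous_invFun := hmul s⁻¹ }
    exact (tendsto_residual_of_isOpenMap (hmul s) e.isOpenMap).eventually hP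
  have h2 : ∀ᶠ γ in residual (H → G), ∀ (h : H) (g : G), ∀ r ∈ range φ,
      (Pi.mulSingle h g * γ ∈ φ ⁻¹' {r} ↔ Pi.mulSingle h g * γ ∈ U r) := by
    rw [eventually_countable_forall]
    intro h
    rw [eventually_countable_forall]
    intro g
    exact hev (Pi.mulSingle h g) h1
  filter_upwards [h1, h2] with γ a1 a2
  have h3 : γ ∈ U (φ γ) := (a1 (φ γ) ⟨γ, rfl⟩).1 rfl
  obtain ⟨I, u, hu, hsub⟩ := isOpen_pi_iff.mp (hUo (φ γ)) γ h3
  refine ⟨I, fun h hh g => ?_⟩
  refine (a2 h g (φ γ) ⟨γ, rfl⟩).2 (hsub ?_)
  intro i hi
  have h4 : i ≠ h := fun h5 => hh (h5 ▸ hi)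
  have h5 : (Pi.mulSingle h g * γ : H → G) i = γ i := by
    simp [Pi.mulSingle_eq_of_ne h4]
  rw [h5]
  exact (hu i hi).2

end

end Pool.Agent.W6h79.Jump
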