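import Mathlib
import Pool.Agent.W6h79.Jump.Core

set_option autoImplicit false
set_option linter.unusedSectionVars false

open Set Filter Topology MeasureTheory

namespace Pool.Agent.W6h79.Jump

/-- Kuratowski-Ulam for actions by homeomorphisms. -/
theorem ku_act {Z P : Type} [TopologicalSpace Z] [TopologicalSpace P]
    [SecondCountableTopology Z] [SecondCountableTopology P] [BaireSpace Z] [BaireSpace P]
    [Nonempty P] [MeasurableSpace Z] [BorelSpace Z] [MeasurableSpace P] [BorelSpace P]
    (a : P → Z ≃ₜ Z) (ha : Continuous fun q : Z × P => a q.2 q.1) {Q : Set Z}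
    (hQ : MeasurableSet Q) (h : ∀ x, ∀ᶠ p in residual P, a p x ∈ Q) :
    ∀ᶠ x in residual Z, x ∈ Q := by
  have hmeas : MeasurableSet {q : Z × P | ¬ a q.2 q.1 ∈ Q} := (ha.measurable hQ).compl
  have h2 : ∀ x : Z, IsMeagre {p : P | (x, p) ∈ {q : Z × P | ¬ a q.2 q.1 ∈ Q}} := by
    intro x
    rw [IsMeagre]
    filter_upwards [h x] with p hp hcon
    exact hcon hp
  have h3 := Pool.Agent.H65R4.ku_borel hmeas.baireMeasurableSet h2
  obtain ⟨p, _, hp⟩ := (dense_of_mem_residual h3).inter_open_nonempty univ isOpen_univ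
    ⟨Classical.arbitrary P, mem_univ _⟩
  have h5 : ∀ᶠ x in residual Z, a p x ∈ Q := by
    have h6 : IsMeagre {x : Z | (x, p) ∈ {q : Z × P | ¬ a q.2 q.1 ∈ Q}} := hp
    rw [IsMeagre] at h6
    filter_upwards [h6] with x hx
    by_contra hcon
    exact hx hcon
  have h7 := (tendsto_residual_of_isOpenMap (a p).symm.continuous
    (a p).symm.isOpenMap).eventually h5
  filter_upwards [h7] with x hx
  simpa using hx

/-- A countable Borel cover of a product of countable discrete spaces is locally constant at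
almost all points. -/
theorem loc_cover {I D T ι : Type} [Countable I] [Countable D] [Countable T] [Countable ι]
    [DecidableEq I] [TopologicalSpace D] [DiscreteTopology D] [MeasurableSpace D] [BorelSpace D]
    (e : T → D ≃ D) (C : ι → Set (I → D)) (hC : ∀ i, MeasurableSet (C i))
    (hcov : ∀ p, ∃ i, p ∈ C i) :
    ∀ᶠ p in residual (I → D), ∃ A : Finset I, ∀ h ∉ A, ∀ t : T,
      ∃ i, p ∈ C i ∧ Function.update p h (e t (p h)) ∈ C i := by
  have hU : ∀ i, ∃ U : Set (I → D), IsOpen U ∧ C i =ᶠ[residual (I → D)] U := fun i =>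
    ((hC i).baireMeasurableSet).residualEq_isOpen
  choose U hUo hU using hU
  have h1 : ∀ᶠ p in residual (I → D), ∀ i, (p ∈ C i ↔ p ∈ U i) := by
    rw [eventually_countable_forall]
    intro i
    filter_upwards [hU i] with p hp
    exact iff_of_eq hp
  have hcont : ∀ (h : I) (ψ : D → D), Continuous (fun p : I → D => Function.update p h (ψ (p h))) := by
    intro h ψ
    refine continuous_pi fun j => ?_
    by_cases hj : j = h
    · subst hj
      simp only [Function.update_self]
      exact (continuous_of_discreteTopology (f := ψ)).comp (continuous_apply j)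
    · simp only [Function.update_of_ne hj]
      exact continuous_apply j
  have hev : ∀ (h : I) (t : T) {P : (I → D) → Prop}, (∀ᶠ p in residual (I → D), P p) →
      ∀ᶠ p in residual (I → D), P (Function.update p h (e t (p h))) := by
    intro h t P hP
    let E : (I → D) ≃ₜ (I → D) :=
      { toFun := fun p => Function.update p h (e t (p h))
        invFun := fun p => Function.update p h ((e t).symm (p h))
        left_inv := fun p => by simp
        right_inv := fun p => by simp
        continuous_toFun := hcont h (e t)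
        continuous_invFun := hcont h (e t).symm }
    exact (tendsto_residual_of_isOpenMap (hcont h (e t)) E.isOpenMap).eventually hP
  have h2 : ∀ᶠ p in residual (I → D), ∀ (h : I) (t : T), ∀ i,
      (Function.update p h (e t (p h)) ∈ C i ↔ Function.update p h (e t (p h)) ∈ U i) := by
    rw [eventually_countable_forall]
    intro h
    rw [eventually_countable_forall]
    intro t
    exact hev h t h1
  filter_upwards [h1, h2] with p a1 a2
  obtain ⟨i, hi⟩ := hcov p
  have h3 : p ∈ U i := (a1 i).1 hi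
  obtain ⟨J, u, hu, hsub⟩ := isOpen_pi_iff.mp (hUo i) p h3
  refine ⟨J, fun h hh t => ⟨i, hi, (a2 h t i).2 (hsub ?_)⟩⟩
  intro j hj
  have h4 : j ≠ h := fun h5 => hh (h5 ▸ hj)
  rw [Function.update_of_ne h4]
  exact (hu j hj).2

section

variable {G H : Type} [Group G]

/-- sequences of sequences of points of the Cantor space -/
abbrev ZZ (H G : Type) : Type := H → G → ℕ → Bool

/-- negate the coordinates in `C` -/
noncomputable def nn (C : Set (H × G × ℕ)) (x : ZZ H G) : ZZ H G := by
  classical
  exact fun h g n => xor (x h g n) (decide ((h, g, n) ∈ C))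

theorem nn_mem {C : Set (H × G × ℕ)} {h : H} {g : G} {n : ℕ} (hp : (h, g, n) ∈ C) (x : ZZ H G) :
    nn C x h g n = !(x h g n) := by
  simp [nn, hp]

theorem nn_notMem {C : Set (H × G × ℕ)} {h : H} {g : G} {n : ℕ} (hp : (h, g, n) ∉ C) (x : ZZ H G) :
    nn C x h g n = x h g n := by
  simp [nn, hp]

theorem nn_nn (C C' : Set (H × G × ℕ)) (x : ZZ H G) : nn C (nn C' x) = nn (symmDiff C C') x := by
  funext h g n
  by_cases h1 : (h, g, n) ∈ C <;> by_cases h2 : (h, g, n) ∈ C'
  · have h3 : (h, g, n) ∉ symmDiff C C' := by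
      rw [Set.mem_symmDiff]
      tauto
    rw [nn_mem h1, nn_mem h2, nn_notMem h3, Bool.not_not]
  · have h3 : (h, g, n) ∈ symmDiff C C' := by
      rw [Set.mem_symmDiff]
      tauto
    rw [nn_mem h1, nn_notMem h2, nn_mem h3]
  · have h3 : (h, g, n) ∈ symmDiff C C' := by
      rw [Set.mem_symmDiff]
      tauto
    rw [nn_notMem h1, nn_mem h2, nn_mem h3]
  · have h3 : (h, g, n) ∉ symmDiff C C' := by
      rw [Set.mem_symmDiff]
      tauto
    rw [nn_notMem h1, nn_notMem h2, nn_notMem h3]

theorem nn_self (C : Set (H × G × ℕ)) (x : ZZ H G) : nn C (nn C x) = x := by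
  rw [nn_nn, symmDiff_self]
  funext h g n
  exact nn_notMem (by simp) x

theorem continuous_coord (h : H) (g : G) (n : ℕ) : Continuous fun x : ZZ H G => x h g n :=
  (continuous_apply n).comp ((continuous_apply g).comp (continuous_apply h))

theorem continuous_nn (C : Set (H × G × ℕ)) : Continuous (nn C : ZZ H G → ZZ H G) := by
  refine continuous_pi fun h => continuous_pi fun g => continuous_pi fun n => ?_
  by_cases hp : (h, g, n) ∈ C
  · have : (fun x : ZZ H G => nn C x h g n) = fun x => !(x h g n) := by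
      funext x
      exact nn_mem hp x
    rw [this]
    exact (continuous_of_discreteTopology (f := Bool.not)).comp (continuous_coord h g n)
  · have : (fun x : ZZ H G => nn C x h g n) = fun x => x h g n := by
      funext x
      exact nn_notMem hp x
    rw [this]
    exact continuous_coord h g n

/-- the negation as a homeomorphism -/
noncomputable def nnHomeo (C : Set (H × G × ℕ)) : ZZ H G ≃ₜ ZZ H G where
  toFun := nn C
  invFun := nn C
  left_inv := nn_self C
  right_inv := nn_self C
  continuous_toFun := continuous_nn C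
  continuous_invFun := continuous_nn C

theorem ev_nn (C : Set (H × G × ℕ)) {P : ZZ H G → Prop}
    (h : ∀ᶠ x in residual (ZZ H G), P x) :
    ∀ᶠ x in residual (ZZ H G), P (nn C x) :=
  (tendsto_residual_of_isOpenMap (continuous_nn C) (nnHomeo C).isOpenMap).eventually h

/-- the shifts of the coordinates -/
def sh (γ : H → G) (x : ZZ H G) : ZZ H G := fun h g n => x h ((γ h)⁻¹ * g) n

theorem sh_mul (γ δ : H → G) (x : ZZ H G) : sh (γ * δ) x = sh γ (sh δ x) := by
  funext h g n
  simp [sh, mul_assoc]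

theorem sh_one (x : ZZ H G) : sh (1 : H → G) x = x := by
  funext h g n
  simp [sh]

theorem continuous_sh (γ : H → G) : Continuous (sh γ) :=
  continuous_pi fun _ => continuous_pi fun _ => continuous_pi fun _ => continuous_coord _ _ _

/-- the shift as a homeomorphism -/
def shHomeo (γ : H → G) : ZZ H G ≃ₜ ZZ H G where
  toFun := sh γ
  invFun := sh γ⁻¹
  left_inv x := by rw [← sh_mul, inv_mul_cancel, sh_one]
  right_inv x := by rw [← sh_mul, mul_inv_cancel, sh_one]
  continuous_toFun := continuous_sh γ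
  continuous_invFun := continuous_sh γ⁻¹

theorem ev_sh (γ : H → G) {P : ZZ H G → Prop}
    (h : ∀ᶠ x in residual (ZZ H G), P x) :
    ∀ᶠ x in residual (ZZ H G), P (sh γ x) :=
  (tendsto_residual_of_isOpenMap (continuous_sh γ) (shHomeo γ).isOpenMap).eventually h

/-- the relation of eventual agreement on the Cantor space -/
def Ev (a b : ℕ → Bool) : Prop := ∃ N, ∀ n, N ≤ n → a n = b n

theorem ev_refl (a : ℕ → Bool) : Ev a a := ⟨0, fun _ _ => rfl⟩

theorem sh_rel [Group H] (γ : H → G) (x : ZZ H G) : GJump H (GJump G Ev) x (sh γ x) := by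
  refine ⟨1, fun h => ⟨γ h, fun g => ?_⟩⟩
  have : x (1⁻¹ * h) ((γ h)⁻¹ * g) = sh γ x h g := by
    funext n
    simp [sh]
  rw [this]
  exact ev_refl _

theorem nn_rel [Group H] (δ : H × G → Finset ℕ) (x : ZZ H G) :
    GJump H (GJump G Ev) x (nn {p | p.2.2 ∈ δ (p.1, p.2.1)} x) := by
  refine ⟨1, fun h => ⟨1, fun g => ?_⟩⟩
  refine ⟨(δ (h, g)).sup id + 1, fun n hn => ?_⟩
  have h1 : (h, g, n) ∉ {p : H × G × ℕ | p.2.2 ∈ δ (p.1, p.2.1)} := by
    intro h2
    have h3 : n ≤ (δ (h, g)).sup id := Finset.le_sup (f := id) h2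
    omega
  rw [nn_notMem h1]
  simp

/-- cylinders -/
def cl (x : ZZ H G) (S : Finset (H × G × ℕ)) : Set (ZZ H G) :=
  {y | ∀ p ∈ S, y p.1 p.2.1 p.2.2 = x p.1 p.2.1 p.2.2}

theorem isOpen_cl (x : ZZ H G) (S : Finset (H × G × ℕ)) : IsOpen (cl x S) := by
  have : cl x S = ⋂ p ∈ S, {y : ZZ H G | y p.1 p.2.1 p.2.2 = x p.1 p.2.1 p.2.2} := by
    ext y
    simp [cl]
  rw [this]
  refine isOpen_biInter_finset fun p _ => ?_
  exact (isOpen_discrete ({x p.1 p.2.1 p.2.2} : Set Bool)).preimage (continuous_coord _ _ _)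

theorem mem_cl_self (x : ZZ H G) (S : Finset (H × G × ℕ)) : x ∈ cl x S := fun _ _ => rfl

theorem exists_cl {U : Set (ZZ H G)} (hU : IsOpen U) {x : ZZ H G} (hx : x ∈ U) :
    ∃ S : Finset (H × G × ℕ), cl x S ⊆ U := by
  have hc : Continuous fun (y : H × G × ℕ → Bool) => (fun h g n => y (h, g, n) : ZZ H G) :=
    continuous_pi fun h => continuous_pi fun g => continuous_pi fun n => continuous_apply _
  have hx' : (fun p : H × G × ℕ => x p.1 p.2.1 p.2.2) ∈
      (fun (y : H × G × ℕ → Bool) => (fun h g n => y (h, g, n) : ZZ H G)) ⁻¹' U := hx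
  obtain ⟨I, u, hu, hsub⟩ := isOpen_pi_iff.mp (hU.preimage hc) _ hx'
  refine ⟨I, fun y hy => ?_⟩
  have h1 : (fun p : H × G × ℕ => y p.1 p.2.1 p.2.2) ∈ (I : Set (H × G × ℕ)).pi u := by
    intro p hp
    have h2 := hy p hp
    have h3 := (hu p hp).2
    change y p.1 p.2.1 p.2.2 ∈ u p
    rw [h2]
    exact h3
  exact hsub h1

instance baireZZ [Countable G] [Countable H] : BaireSpace (ZZ H G) := by
  have : TopologicalSpace.IsCompletelyMetrizableSpace (ℕ → Bool) :=
    TopologicalSpace.IsCompletelyMetrizableSpace.pi_countable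
  have : TopologicalSpace.IsCompletelyMetrizableSpace (G → ℕ → Bool) :=
    TopologicalSpace.IsCompletelyMetrizableSpace.pi_countable
  have : TopologicalSpace.IsCompletelyMetrizableSpace (H → G → ℕ → Bool) :=
    TopologicalSpace.IsCompletelyMetrizableSpace.pi_countable
  exact (inferInstance : BaireSpace (H → G → ℕ → Bool))

instance borelZZ [Countable G] [Countable H] : BorelSpace (ZZ H G) := by
  have h1 : BorelSpace (ℕ → Bool) := inferInstance
  have h2 : BorelSpace (G → ℕ → Bool) := Pi.borelSpace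
  exact (Pi.borelSpace : BorelSpace (H → G → ℕ → Bool))

theorem exists_of_res [Countable G] [Countable H] {P : ZZ H G → Prop}
    (h : ∀ᶠ z in residual (ZZ H G), P z)
    {U : Set (ZZ H G)} (hU : IsOpen U) (hne : U.Nonempty) : ∃ z ∈ U, P z := by
  obtain ⟨z, hz1, hz2⟩ := (dense_of_mem_residual h).inter_open_nonempty U hU hne
  exact ⟨z, hz1, hz2⟩

/-- a comeagre set which is a countable union of measurable sets: one of them contains almost all
points of a cylinder inside a given open set. -/
theorem exists_piece [Countable G] [Countable H] {ι : Type} [Countable ι] (Q : ι → Set (ZZ H G))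
    (hQ : ∀ i, MeasurableSet (Q i)) {U : Set (ZZ H G)} (hU : IsOpen U) (hne : U.Nonempty)
    (h : ∀ᶠ x in residual (ZZ H G), x ∈ U → ∃ i, x ∈ Q i) :
    ∃ (i : ι) (z : ZZ H G) (S : Finset (H × G × ℕ)), cl z S ⊆ U ∧
      ∀ᶠ x in residual (ZZ H G), x ∈ cl z S → x ∈ Q i := by
  have h5 : ∃ i, ¬ IsMeagre (Q i ∩ U) := by
    by_contra hcon
    push Not at hcon
    have h6 : IsMeagre (⋃ i, Q i ∩ U) := isMeagre_iUnion hcon
    rw [IsMeagre] at h6
    obtain ⟨x, hxU, hx⟩ := exists_of_res (h.and h6) hU hne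
    obtain ⟨hA, hx2⟩ := hx
    obtain ⟨i, hi⟩ := hA hxU
    exact hx2 (mem_iUnion.2 ⟨i, hi, hxU⟩)
  obtain ⟨i, hi⟩ := h5
  obtain ⟨W, hW, hWe⟩ := ((hQ i).inter hU.measurableSet).baireMeasurableSet.residualEq_isOpen
  have hWe' : ∀ᶠ x in residual (ZZ H G), (x ∈ Q i ∩ U ↔ x ∈ W) := by
    filter_upwards [hWe] with x hx
    exact iff_of_eq hx
  rcases (W ∩ U).eq_empty_or_nonempty with hemp | ⟨z, hz⟩
  · exfalso
    apply hi
    rw [IsMeagre]
    filter_upwards [hWe'] with x hx h8
    have h9 : x ∈ W ∩ U := ⟨hx.1 h8, h8.2⟩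
    rw [hemp] at h9
    exact h9
  · obtain ⟨S, hS⟩ := exists_cl (hW.inter hU) hz
    refine ⟨i, z, S, fun x hx => (hS hx).2, ?_⟩
    filter_upwards [hWe'] with x hx hxS
    exact (hx.2 (hS hxS).1).1

end

end Pool.Agent.W6h79.Jump
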