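import Mathlib
import Pool.Agent.W6h79.Jump.NS1

set_option autoImplicit false
set_option linter.unusedSectionVars false

open Set Filter Topology MeasureTheory

namespace Pool.Agent.W6h79.Jump

section

variable {G H : Type} [Group G] [Countable G] [Countable H]

theorem nn_empty (x : ZZ H G) : nn ∅ x = x := by
  funext h g n
  exact nn_notMem (by simp) x

theorem finite_invariant (f : ZZ H G → ℝ) (B : Set (H × G)) (z : ZZ H G)
    (S : Finset (H × G × ℕ)) (hS : ∀ p ∈ S, (p.1, p.2.1) ∈ B)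
    (hinv : ∀ᶠ x in residual (ZZ H G), x ∈ cl z S →
      ∀ p : H × G × ℕ, (p.1, p.2.1) ∉ B → f (nn {p} x) = f x)
    (M : Finset (H × G × ℕ)) (hM : ∀ p ∈ M, (p.1, p.2.1) ∉ B) :
    ∀ᶠ x in residual (ZZ H G), x ∈ cl z S → f (nn (M : Set (H × G × ℕ)) x) = f x := by
  classical
  induction M using Finset.induction_on with
  | empty =>
    refine Eventually.of_forall fun x _ => ?_
    rw [Finset.coe_empty, nn_empty]
  | insert p M hp ih =>
    have ih' := ih fun q hq => hM q (Finset.mem_insert_of_mem hq)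
    have h1 := ev_nn (M : Set (H × G × ℕ)) hinv
    filter_upwards [ih', h1] with x a1 a2 hx
    have h2 : nn ((insert p M : Finset (H × G × ℕ)) : Set (H × G × ℕ)) x =
        nn {p} (nn (M : Set (H × G × ℕ)) x) := by
      rw [nn_nn]
      congr 1
      ext q
      rw [Set.mem_symmDiff]
      simp only [Finset.coe_insert, Set.mem_insert_iff, Finset.mem_coe, Set.mem_singleton_iff]
      constructor
      · rintro (rfl | hq)
        · exact Or.inl ⟨rfl, hp⟩
        · exact Or.inr ⟨hq, fun h => hp (h ▸ hq)⟩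
      · rintro (⟨rfl, _⟩ | ⟨hq, _⟩)
        · exact Or.inl rfl
        · exact Or.inr hq
    have h3 : nn (M : Set (H × G × ℕ)) x ∈ cl z S := by
      intro q hq
      have h4 : (q.1, q.2.1, q.2.2) ∉ (M : Set (H × G × ℕ)) := fun h5 =>
        hM q (Finset.mem_insert_of_mem h5) (hS q hq)
      rw [nn_notMem h4]
      exact hx q hq
    rw [h2, a2 h3 p (hM p (Finset.mem_insert_self _ _)), a1 hx]

theorem neg_below (f : ZZ H G → ℝ) (hf : Measurable f) (B : Set (H × G)) (z : ZZ H G)
    (S : Finset (H × G × ℕ)) (hS : ∀ p ∈ S, (p.1, p.2.1) ∈ B)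
    (hinv : ∀ᶠ x in residual (ZZ H G), x ∈ cl z S →
      ∀ p : H × G × ℕ, (p.1, p.2.1) ∉ B → f (nn {p} x) = f x)
    (C : Set (H × G × ℕ)) (hC : ∀ p ∈ C, (p.1, p.2.1) ∉ B) (q : ℝ) :
    IsMeagre {x | x ∈ cl z S ∧ f x < q ∧ ¬ f (nn C x) < q} := by
  classical
  set D : Set (ZZ H G) := {x | x ∈ cl z S ∧ f x < q ∧ ¬ f (nn C x) < q} with hD
  have hDm : MeasurableSet D := by
    refine (isOpen_cl z S).measurableSet.inter ((measurableSet_lt hf measurable_const).inter ?_)
    exact (measurableSet_lt (hf.comp (continuous_nn C).measurable) measurable_const).compl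
  obtain ⟨U, hU, hUe⟩ := hDm.baireMeasurableSet.residualEq_isOpen
  have hUe' : ∀ᶠ x in residual (ZZ H G), (x ∈ D ↔ x ∈ U) := by
    filter_upwards [hUe] with x hx
    exact iff_of_eq hx
  rcases U.eq_empty_or_nonempty with rfl | ⟨w, hw⟩
  · rw [IsMeagre]
    filter_upwards [hUe'] with x hx h8
    exact (hx.1 h8)
  · exfalso
    obtain ⟨T, hT⟩ := exists_cl hU hw
    let M : Finset (H × G × ℕ) := T.filter fun p => p ∈ C
    have hM : ∀ p ∈ M, (p.1, p.2.1) ∉ B := fun p hp => hC p (Finset.mem_filter.1 hp).2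
    have h1 := ev_nn (M : Set (H × G × ℕ)) (ev_nn C hUe')
    have h2 := finite_invariant f B z S hS hinv M hM
    obtain ⟨y, hy, hy1, hy2, hy3⟩ := exists_of_res (hUe'.and (h1.and h2)) (isOpen_cl w T)
      ⟨w, mem_cl_self w T⟩
    have hv : nn C (nn (M : Set (H × G × ℕ)) y) ∈ cl w T := by
      rintro ⟨h, g, n⟩ hp
      change nn C (nn (M : Set (H × G × ℕ)) y) h g n = w h g n
      have h3 : y h g n = w h g n := hy _ hp
      by_cases hpC : (h, g, n) ∈ C
      · have h4 : (h, g, n) ∈ (M : Set (H × G × ℕ)) := Finset.mem_filter.2 ⟨hp, hpC⟩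
        rw [nn_mem hpC, nn_mem h4, Bool.not_not, h3]
      · have h4 : (h, g, n) ∉ (M : Set (H × G × ℕ)) := fun h5 => hpC (Finset.mem_filter.1 h5).2
        rw [nn_notMem hpC, nn_notMem h4, h3]
    obtain ⟨b1, b2, b3⟩ := hy1.2 (hT hy)
    obtain ⟨c1, c2, c3⟩ := hy2.2 (hT hv)
    rw [nn_self, hy3 b1] at c3
    exact c3 b2

/-- If `f` is invariant under the finite changes outside of `B` on a cylinder with coordinates in
`B`, then it is invariant under all changes outside of `B`, at almost all points. -/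
theorem neg_invariant (f : ZZ H G → ℝ) (hf : Measurable f) (B : Set (H × G)) (z : ZZ H G)
    (S : Finset (H × G × ℕ)) (hS : ∀ p ∈ S, (p.1, p.2.1) ∈ B)
    (hinv : ∀ᶠ x in residual (ZZ H G), x ∈ cl z S →
      ∀ p : H × G × ℕ, (p.1, p.2.1) ∉ B → f (nn {p} x) = f x)
    (C : Set (H × G × ℕ)) (hC : ∀ p ∈ C, (p.1, p.2.1) ∉ B) :
    ∀ᶠ x in residual (ZZ H G), x ∈ cl z S → f (nn C x) = f x := by
  have h1 : ∀ᶠ x in residual (ZZ H G), ∀ q : ℚ,
      ¬ (x ∈ cl z S ∧ f x < q ∧ ¬ f (nn C x) < q) := by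
    rw [eventually_countable_forall]
    intro q
    exact neg_below f hf B z S hS hinv C hC q
  have h2 := ev_nn C h1
  filter_upwards [h1, h2] with x hx1 hx2 hx
  have hx' : nn C x ∈ cl z S := by
    intro q hq
    have h4 : (q.1, q.2.1, q.2.2) ∉ C := fun h5 => hC q h5 (hS q hq)
    rw [nn_notMem h4]
    exact hx q hq
  by_contra hne
  rcases lt_or_gt_of_ne hne with hlt | hlt
  · obtain ⟨q, hq1, hq2⟩ := exists_rat_btwn hlt
    refine hx2 q ⟨hx', hq1, ?_⟩
    rw [nn_self]
    exact not_lt.2 hq2.le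
  · obtain ⟨q, hq1, hq2⟩ := exists_rat_btwn hlt
    exact hx1 q ⟨hx, hq1, not_lt.2 hq2.le⟩

/-- the set of coordinates given by a sequence of finite sets -/
def SD (δ : H × G → Finset ℕ) : Set (H × G × ℕ) := {p | p.2.2 ∈ δ (p.1, p.2.1)}

theorem nn_single_SD (δ : H × G → Finset ℕ) (i : H × G) (n : ℕ) [DecidableEq (H × G)]
    (x : ZZ H G) :
    nn {(i.1, i.2, n)} (nn (SD δ) x) = nn (SD (Function.update δ i (symmDiff {n} (δ i)))) x := by
  rw [nn_nn]
  congr 1
  ext ⟨h, g, m⟩
  rw [Set.mem_symmDiff]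
  simp only [SD, Set.mem_singleton_iff, Set.mem_ofPred_eq, Prod.mk.injEq]
  by_cases hi : (h, g) = i
  · subst hi
    simp only [Function.update_self, Finset.mem_symmDiff, Finset.mem_singleton, true_and]
  · have h1 : ¬ (h = i.1 ∧ g = i.2 ∧ m = n) := fun h2 => hi (Prod.ext h2.1 h2.2.1)
    rw [Function.update_of_ne hi]
    tauto

/-- A function which takes only countably many values on the classes depends, at almost all points,
only on finitely many coordinates modulo finite changes. -/
theorem finitely_many_coords (f : ZZ H G → ℝ) (hf : Measurable f)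
    (hc : ∀ x, (range fun δ : H × G → Finset ℕ => f (nn (SD δ) x)).Countable) :
    ∀ᶠ x in residual (ZZ H G), ∃ B : Finset (H × G), ∀ p : H × G × ℕ, (p.1, p.2.1) ∉ B →
      f (nn {p} x) = f x := by
  classical
  let _ : TopologicalSpace (Finset ℕ) := ⊥
  have : DiscreteTopology (Finset ℕ) := ⟨rfl⟩
  let _ : MeasurableSpace (Finset ℕ) := borel (Finset ℕ)
  have : BorelSpace (Finset ℕ) := ⟨rfl⟩
  have : BaireSpace (H × G → Finset ℕ) := by
    have : PolishSpace (Finset ℕ) := inferInstance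
    have : TopologicalSpace.IsCompletelyMetrizableSpace (H × G → Finset ℕ) :=
      TopologicalSpace.IsCompletelyMetrizableSpace.pi_countable
    infer_instance
  let Q : Set (ZZ H G) := {x | ∃ B : Finset (H × G), ∀ p : H × G × ℕ, (p.1, p.2.1) ∉ B →
      f (nn {p} x) = f x}
  have hQ : MeasurableSet Q := by
    have h1 : Q = ⋃ B : Finset (H × G), ⋂ p : H × G × ℕ, ⋂ (_ : (p.1, p.2.1) ∉ B),
        {x | f (nn {p} x) = f x} := by
      ext x
      simp [Q]
    rw [h1]
    refine MeasurableSet.iUnion fun B => MeasurableSet.iInter fun p => MeasurableSet.iInter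
      fun _ => measurableSet_eq_fun (hf.comp (continuous_nn _).measurable) hf
  have hcont : Continuous fun q : ZZ H G × (H × G → Finset ℕ) => nn (SD q.2) q.1 := by
    refine continuous_pi fun h => continuous_pi fun g => continuous_pi fun n => ?_
    let φ : Bool × Finset ℕ → Bool := fun r => if n ∈ r.2 then !r.1 else r.1
    have hφ : Continuous φ := continuous_of_discreteTopology
    have h1 : (fun q : ZZ H G × (H × G → Finset ℕ) => nn (SD q.2) q.1 h g n) =
        fun q => φ (q.1 h g n, q.2 (h, g)) := by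
      funext q
      by_cases hq : n ∈ q.2 (h, g)
      · rw [nn_mem (show (h, g, n) ∈ SD q.2 from hq)]
        simp [φ, hq]
      · rw [nn_notMem (show (h, g, n) ∉ SD q.2 from hq)]
        simp [φ, hq]
    rw [h1]
    have h2 : Continuous fun q : ZZ H G × (H × G → Finset ℕ) => (q.1 h g n, q.2 (h, g)) :=
      ((continuous_coord h g n).comp continuous_fst).prodMk
        ((continuous_apply (h, g)).comp continuous_snd)
    exact hφ.comp h2
  refine ku_act (P := H × G → Finset ℕ) (fun δ => nnHomeo (SD δ)) hcont hQ ?_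
  intro x
  have hfx : Measurable fun δ : H × G → Finset ℕ => f (nn (SD δ) x) := by
    have h3 : Continuous fun δ : H × G → Finset ℕ => nn (SD δ) x :=
      hcont.comp (continuous_const.prodMk continuous_id)
    exact hf.comp h3.measurable
  let R : Set ℝ := range fun δ : H × G → Finset ℕ => f (nn (SD δ) x)
  have : Countable R := (hc x).to_subtype
  let e : ℕ → Finset ℕ ≃ Finset ℕ := fun n =>
    { toFun := fun s => symmDiff {n} s
      invFun := fun s => symmDiff {n} s
      left_inv := fun s => by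
        change symmDiff {n} (symmDiff {n} s) = s
        rw [← symmDiff_assoc, symmDiff_self, bot_symmDiff]
      right_inv := fun s => by
        change symmDiff {n} (symmDiff {n} s) = s
        rw [← symmDiff_assoc, symmDiff_self, bot_symmDiff] }
  have h4 := loc_cover e (fun r : R => {δ : H × G → Finset ℕ | f (nn (SD δ) x) = r.1})
    (fun r => hfx (measurableSet_singleton r.1)) (fun δ => ⟨⟨_, δ, rfl⟩, rfl⟩)
  filter_upwards [h4] with δ hδ
  obtain ⟨B, hB⟩ := hδ
  refine ⟨B, fun p hp => ?_⟩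
  obtain ⟨r, hr1, hr2⟩ := hB (p.1, p.2.1) hp p.2.2
  have h5 := nn_single_SD δ (p.1, p.2.1) p.2.2 x
  have h6 : ((((p.1, p.2.1) : H × G).1, ((p.1, p.2.1) : H × G).2, p.2.2) : H × G × ℕ) = p := rfl
  rw [h6] at h5
  change f (nn {p} (nn (SD δ) x)) = f (nn (SD δ) x)
  rw [h5]
  exact hr2.trans hr1.symm

/-- For generic `x`, `x` and its negation at `k` are not related. -/
theorem generic_not_rel' [Group H] (k : H) :
    ∀ᶠ x in residual (ZZ H G), ¬ GJump H (GJump G Ev) x (nn {p | p.1 = k} x) := by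
  classical
  have key : ∀ (h : H) (g : G) (N : ℕ), ∀ᶠ x in residual (ZZ H G),
      ∃ n, N ≤ n ∧ x (h⁻¹ * k) g⁻¹ n = x k 1 n := by
    intro h g N
    refine residual_of_dense_open ?_ ?_
    · have : {x : ZZ H G | ∃ n, N ≤ n ∧ x (h⁻¹ * k) g⁻¹ n = x k 1 n} =
          ⋃ n : ℕ, ⋃ (_ : N ≤ n), {x : ZZ H G | x (h⁻¹ * k) g⁻¹ n = x k 1 n} := by
        ext x
        simp
      rw [this]
      refine isOpen_iUnion fun n => isOpen_iUnion fun _ => ?_
      have hc : Continuous fun x : ZZ H G => (x (h⁻¹ * k) g⁻¹ n, x k 1 n) :=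
        (continuous_coord _ _ _).prodMk (continuous_coord _ _ _)
      exact (isOpen_discrete {p : Bool × Bool | p.1 = p.2}).preimage hc
    · rw [dense_iff_inter_open]
      rintro U hU ⟨z, hz⟩
      obtain ⟨S, hS⟩ := exists_cl hU hz
      obtain ⟨m, hm⟩ := Infinite.exists_notMem_finset ((S.image fun p => p.2.2) ∪ Finset.range N)
      have hmN : N ≤ m := by
        by_contra hcon
        exact hm (Finset.mem_union_right _ (Finset.mem_range.2 (not_le.1 hcon)))
      have hmS : ∀ p ∈ S, p.2.2 ≠ m := fun p hp h1 =>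
        hm (Finset.mem_union_left _ (Finset.mem_image.2 ⟨p, hp, h1⟩))
      let y : ZZ H G := fun a b c => if c = m then true else z a b c
      refine ⟨y, hS ?_, m, hmN, ?_⟩
      · intro p hp
        simp only [y]
        rw [if_neg (hmS p hp)]
      · simp [y]
  have key2 : ∀ᶠ x in residual (ZZ H G), ∀ (h : H) (g : G) (N : ℕ),
      ∃ n, N ≤ n ∧ x (h⁻¹ * k) g⁻¹ n = x k 1 n := by
    rw [eventually_countable_forall]
    intro h
    rw [eventually_countable_forall]
    intro g
    rw [eventually_countable_forall]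
    exact key h g
  filter_upwards [key2] with x hx
  rintro ⟨h, hh⟩
  obtain ⟨g, hg⟩ := hh k
  obtain ⟨N, hN⟩ := hg 1
  obtain ⟨n, hn, hxn⟩ := hx h g N
  have h1 := hN n hn
  rw [mul_one, nn_mem (show (k, (1 : G), n) ∈ {p : H × G × ℕ | p.1 = k} from rfl), hxn] at h1
  cases h2 : x k 1 n <;> simp [h2] at h1

end

end Pool.Agent.W6h79.Jump
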