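import Mathlib
import Pool.Agent.W6h79.Jump.NS2

set_option autoImplicit false
set_option linter.unusedSectionVars false

open Set Filter Topology MeasureTheory

namespace Pool.Agent.W6h79.Jump

section

variable {G H K Y : Type} [Group G] [Group H] [Group K] [Countable G] [Countable H] [Countable K]
  [MeasurableSpace Y] [StandardBorelSpace Y]

theorem measurableSet_rel (F : Y → Y → Prop) (hFb : MeasurableSet {p : Y × Y | F p.1 p.2})
    {X : Type} [MeasurableSpace X] {a b : X → Y} (ha : Measurable a) (hb : Measurable b) :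
    MeasurableSet {x | F (a x) (b x)} :=
  (ha.prodMk hb) hFb

theorem continuous_sh2 [TopologicalSpace G] [DiscreteTopology G] :
    Continuous (fun p : ZZ H G × (H → G) => sh p.2 p.1) := by
  refine continuous_pi fun h => continuous_pi fun g => continuous_pi fun n => ?_
  rw [continuous_iff_continuousAt]
  rintro ⟨x0, γ0⟩
  have h1 : ContinuousAt (fun p : ZZ H G × (H → G) => p.1 h ((γ0 h)⁻¹ * g) n) (x0, γ0) := by
    have hc : Continuous (fun p : ZZ H G × (H → G) => p.1 h ((γ0 h)⁻¹ * g) n) :=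
      (continuous_coord _ _ _).comp continuous_fst
    exact hc.continuousAt
  refine h1.congr ?_
  have h2 : ∀ᶠ p : ZZ H G × (H → G) in 𝓝 (x0, γ0), p.2 h = γ0 h := by
    have hc : Continuous fun p : ZZ H G × (H → G) => p.2 h :=
      (continuous_apply h).comp continuous_snd
    exact ((isOpen_discrete ({γ0 h} : Set G)).preimage hc).mem_nhds (by simp)
  filter_upwards [h2] with p hp
  simp only [sh, hp]

/-- For almost all `x` the shifts at the coordinates outside of a finite set do not change the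
`F`-classes of the coordinates of `θ x`. -/
theorem alpha [DecidableEq H] (F : Y → Y → Prop) (hF : Equivalence F)
    (hFb : MeasurableSet {p : Y × Y | F p.1 p.2}) (θ : ZZ H G → K → Y) (hθ : Measurable θ)
    (hred : ∀ x y, GJump H (GJump G Ev) x y → GJump K F (θ x) (θ y)) :
    ∀ᶠ x in residual (ZZ H G), ∃ A : Finset H, ∀ h ∉ A, ∀ g : G, ∀ k : K,
      F (θ (sh (Pi.mulSingle h g) x) k) (θ x k) := by
  classical
  let _ : TopologicalSpace G := ⊥
  have : DiscreteTopology G := ⟨rfl⟩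
  let _ : MeasurableSpace G := borel G
  have : BorelSpace G := ⟨rfl⟩
  have : BaireSpace (H → G) := by
    have : PolishSpace G := inferInstance
    have : TopologicalSpace.IsCompletelyMetrizableSpace (H → G) :=
      TopologicalSpace.IsCompletelyMetrizableSpace.pi_countable
    infer_instance
  have hθk : ∀ k, Measurable fun x => θ x k := fun k => (measurable_pi_apply k).comp hθ
  let Q : Set (ZZ H G) := {x | ∃ A : Finset H, ∀ h ∉ A, ∀ g : G, ∀ k : K,
      F (θ (sh (Pi.mulSingle h g) x) k) (θ x k)}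
  have hQ : MeasurableSet Q := by
    have h1 : Q = ⋃ A : Finset H, ⋂ h : H, ⋂ (_ : h ∉ A), ⋂ g : G, ⋂ k : K,
        {x | F (θ (sh (Pi.mulSingle h g) x) k) (θ x k)} := by
      ext x
      simp [Q]
    rw [h1]
    refine MeasurableSet.iUnion fun A => MeasurableSet.iInter fun h => MeasurableSet.iInter
      fun _ => MeasurableSet.iInter fun g => MeasurableSet.iInter fun k => ?_
    exact measurableSet_rel F hFb ((hθk k).comp (continuous_sh _).measurable) (hθk k)
  refine ku_act (P := H → G) (fun γ => shHomeo γ) continuous_sh2 hQ ?_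
  intro x
  have hsx : ∀ l, Measurable fun γ : H → G => θ (sh γ x) l := by
    intro l
    have h3 : Continuous fun γ : H → G => sh γ x :=
      continuous_sh2.comp (continuous_const.prodMk continuous_id)
    exact (hθk l).comp h3.measurable
  have h4 := loc_cover (fun g : G => Equiv.mulLeft g)
    (fun k : K => {γ : H → G | ∀ l : K, F (θ x (k⁻¹ * l)) (θ (sh γ x) l)})
    (fun k => by
      have h1 : {γ : H → G | ∀ l : K, F (θ x (k⁻¹ * l)) (θ (sh γ x) l)} =
          ⋂ l : K, {γ : H → G | F (θ x (k⁻¹ * l)) (θ (sh γ x) l)} := by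
        ext γ
        simp
      rw [h1]
      exact MeasurableSet.iInter fun l => measurableSet_rel F hFb measurable_const (hsx l))
    (fun γ => hred _ _ (sh_rel γ x))
  filter_upwards [h4] with γ hγ
  obtain ⟨A, hA⟩ := hγ
  refine ⟨A, fun h hh g l => ?_⟩
  obtain ⟨k, hk1, hk2⟩ := hA h hh g
  have h5 : Function.update γ h (Equiv.mulLeft g (γ h)) = Pi.mulSingle h g * γ := by
    funext i
    by_cases hi : i = h
    · subst hi
      simp
    · simp [Function.update_of_ne hi, Pi.mulSingle_eq_of_ne hi]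
  rw [h5] at hk2
  have h6 := hk2 l
  rw [sh_mul] at h6
  exact hF.trans (hF.symm h6) (hk1 l)

theorem claim [Infinite G] [DecidableEq H] (F : Y → Y → Prop) (hF : Equivalence F)
    (hFb : MeasurableSet {p : Y × Y | F p.1 p.2}) (hFc : ∀ y, {z | F y z}.Countable)
    (θ : ZZ H G → K → Y) (hθ : Measurable θ)
    (hred : ∀ x y, GJump H (GJump G Ev) x y → GJump K F (θ x) (θ y))
    (z : ZZ H G) (S : Finset (H × G × ℕ)) (κ : H) (hκ : ∀ p ∈ S, p.1 ≠ κ)
    (hα : ∀ᶠ x in residual (ZZ H G), x ∈ cl z S → ∀ g : G, ∀ k : K,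
      F (θ (sh (Pi.mulSingle κ g) x) k) (θ x k)) (k : K) :
    ∀ᶠ x in residual (ZZ H G), x ∈ cl z S → F (θ x k) (θ (nn {p | p.1 = κ} x) k) := by
  classical
  have hθk : ∀ k, Measurable fun x => θ x k := fun k => (measurable_pi_apply k).comp hθ
  set T : Set (H × G × ℕ) := {p | p.1 = κ} with hT
  let D : Set (ZZ H G) := {x | x ∈ cl z S ∧ ¬ F (θ x k) (θ (nn T x) k)}
  have hDm : MeasurableSet D := (isOpen_cl z S).measurableSet.inter
    (measurableSet_rel F hFb (hθk k) ((hθk k).comp (continuous_nn T).measurable)).compl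
  obtain ⟨U, hU, hUe⟩ := hDm.baireMeasurableSet.residualEq_isOpen
  have hUe' : ∀ᶠ x in residual (ZZ H G), (x ∈ D ↔ x ∈ U) := by
    filter_upwards [hUe] with x hx
    exact iff_of_eq hx
  rcases U.eq_empty_or_nonempty with rfl | hUne
  · filter_upwards [hUe'] with x hx hxS
    by_contra hcon
    exact (hx.1 ⟨hxS, hcon⟩)
  exfalso
  obtain ⟨e, he⟩ := MeasureTheory.exists_measurableEmbedding_real Y
  let f : ZZ H G → ℝ := fun x => e (θ x k)
  have hf : Measurable f := he.measurable.comp (hθk k)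
  have hc : ∀ x, (range fun δ : H × G → Finset ℕ => f (nn (SD δ) x)).Countable := by
    intro x
    have h1 : (⋃ k' : K, {y | F (θ x (k'⁻¹ * k)) y}).Countable := countable_iUnion fun k' => hFc _
    refine (h1.image e).mono ?_
    rintro _ ⟨δ, rfl⟩
    obtain ⟨k', hk'⟩ := hred _ _ (nn_rel δ x)
    exact ⟨_, mem_iUnion.2 ⟨k', hk' k⟩, rfl⟩
  have hβ := finitely_many_coords f hf hc
  have hβT := ev_nn T hβ
  let Q : Finset (H × G) → Set (ZZ H G) := fun B => {x |
    (∀ p : H × G × ℕ, (p.1, p.2.1) ∉ B → f (nn {p} x) = f x) ∧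
    (∀ p : H × G × ℕ, (p.1, p.2.1) ∉ B → f (nn {p} (nn T x)) = f (nn T x))}
  have hQ : ∀ B, MeasurableSet (Q B) := by
    intro B
    have h1 : Q B = (⋂ p : H × G × ℕ, ⋂ (_ : (p.1, p.2.1) ∉ B), {x | f (nn {p} x) = f x}) ∩
        (⋂ p : H × G × ℕ, ⋂ (_ : (p.1, p.2.1) ∉ B), {x | f (nn {p} (nn T x)) = f (nn T x)}) := by
      ext x
      simp [Q]
    rw [h1]
    refine MeasurableSet.inter ?_ ?_
    · exact MeasurableSet.iInter fun p => MeasurableSet.iInter fun _ =>
        measurableSet_eq_fun (hf.comp (continuous_nn _).measurable) hf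
    · exact MeasurableSet.iInter fun p => MeasurableSet.iInter fun _ =>
        measurableSet_eq_fun ((hf.comp (continuous_nn _).measurable).comp
          (continuous_nn T).measurable) (hf.comp (continuous_nn T).measurable)
  have hex : ∀ᶠ x in residual (ZZ H G), x ∈ U → ∃ B, x ∈ Q B := by
    filter_upwards [hβ, hβT] with x h1 h2 _
    obtain ⟨B1, hB1⟩ := h1
    obtain ⟨B2, hB2⟩ := h2
    refine ⟨B1 ∪ B2, fun p hp => hB1 p fun h => hp (Finset.mem_union_left _ h), fun p hp =>
      hB2 p fun h => hp (Finset.mem_union_right _ h)⟩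
  obtain ⟨B0, z', S', hS'U, hS'Q⟩ := exists_piece Q hQ hU hUne hex
  let B : Finset (H × G) := B0 ∪ S'.image fun p => (p.1, p.2.1)
  have hS'B : ∀ p ∈ S', (p.1, p.2.1) ∈ (B : Set (H × G)) := fun p hp =>
    Finset.mem_coe.2 (Finset.mem_union_right _ (Finset.mem_image.2 ⟨p, hp, rfl⟩))
  have hB0 : ∀ q : H × G, q ∉ (B : Set (H × G)) → q ∉ B0 := fun q hq h =>
    hq (Finset.mem_coe.2 (Finset.mem_union_left _ h))
  obtain ⟨g, hg⟩ := Infinite.exists_notMem_finset
    ((B ×ˢ B).image fun p => p.1.2 * p.2.2⁻¹)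
  have hg' : ∀ a b : G, (κ, a) ∈ B → (κ, b) ∈ B → g * b ≠ a := by
    intro a b ha hb hab
    apply hg
    refine Finset.mem_image.2 ⟨((κ, a), (κ, b)), Finset.mem_product.2 ⟨ha, hb⟩, ?_⟩
    simp [← hab]
  let s : H → G := Pi.mulSingle κ g
  let T2 : Set (H × G × ℕ) := {p | p.1 = κ ∧ (κ, p.2.1) ∈ B}
  let T1 : Set (H × G × ℕ) := {p | p.1 = κ ∧ (κ, p.2.1) ∉ B}
  let R : Set (H × G × ℕ) := {p | p.1 = κ ∧ (κ, g * p.2.1) ∈ B}
  have hT12 : symmDiff T1 T2 = T := by
    ext p
    rw [Set.mem_symmDiff]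
    simp only [T1, T2, hT, Set.mem_ofPred_eq]
    tauto
  have hRB : ∀ p ∈ R, (p.1, p.2.1) ∉ (B : Set (H × G)) := by
    rintro ⟨h, a, n⟩ ⟨h1, h2⟩ h3
    simp only at h1 h2
    subst h1
    exact hg' (g * a) a h2 (Finset.mem_coe.1 h3) rfl
  have hT1B : ∀ p ∈ T1, (p.1, p.2.1) ∉ (B : Set (H × G)) := by
    rintro ⟨h, a, n⟩ ⟨h1, h2⟩ h3
    simp only at h1 h2
    subst h1
    exact h2 (Finset.mem_coe.1 h3)
  have hshR : ∀ x : ZZ H G, sh s (nn R x) = nn T2 (sh s x) := by
    intro x
    funext h a n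
    by_cases hh : h = κ
    · subst hh
      have e1 : s h = g := by simp [s]
      by_cases ha : (h, a) ∈ B
      · have h1 : ((h, a, n) : H × G × ℕ) ∈ T2 := ⟨rfl, ha⟩
        have h2 : ((h, (s h)⁻¹ * a, n) : H × G × ℕ) ∈ R := ⟨rfl, by
          simp only [e1, mul_inv_cancel_left]
          exact ha⟩
        rw [nn_mem h1]
        change nn R x h ((s h)⁻¹ * a) n = !(x h ((s h)⁻¹ * a) n)
        rw [nn_mem h2]
      · have h1 : ((h, a, n) : H × G × ℕ) ∉ T2 := fun h3 => ha h3.2
        have h2 : ((h, (s h)⁻¹ * a, n) : H × G × ℕ) ∉ R := fun h3 => by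
          have h4 := h3.2
          simp only [e1, mul_inv_cancel_left] at h4
          exact ha h4
        rw [nn_notMem h1]
        change nn R x h ((s h)⁻¹ * a) n = x h ((s h)⁻¹ * a) n
        rw [nn_notMem h2]
    · have h1 : ((h, a, n) : H × G × ℕ) ∉ T2 := fun h3 => hh h3.1
      have h2 : ((h, (s h)⁻¹ * a, n) : H × G × ℕ) ∉ R := fun h3 => hh h3.1
      rw [nn_notMem h1]
      change nn R x h ((s h)⁻¹ * a) n = x h ((s h)⁻¹ * a) n
      rw [nn_notMem h2]
  have L1 : ∀ᶠ x in residual (ZZ H G), x ∈ cl z' S' → f (nn R x) = f x := by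
    refine neg_invariant f hf (B : Set (H × G)) z' S' hS'B ?_ R hRB
    filter_upwards [hS'Q] with x hx hxS p hp
    exact (hx hxS).1 p (hB0 _ hp)
  have hTcl : ∀ x, x ∈ cl (nn T z') S' → nn T x ∈ cl z' S' := by
    rintro x hx ⟨h, a, n⟩ hp
    change nn T x h a n = z' h a n
    have h1 : x h a n = nn T z' h a n := hx _ hp
    by_cases hh : ((h, a, n) : H × G × ℕ) ∈ T
    · rw [nn_mem hh, h1, nn_mem hh, Bool.not_not]
    · rw [nn_notMem hh, h1, nn_notMem hh]
  have L2 : ∀ᶠ x in residual (ZZ H G), x ∈ cl (nn T z') S' → f (nn T1 x) = f x := by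
    refine neg_invariant f hf (B : Set (H × G)) (nn T z') S' hS'B ?_ T1 hT1B
    have h1 := ev_nn T hS'Q
    filter_upwards [h1] with x hx hxS p hp
    have h2 := (hx (hTcl x hxS)).2 p (hB0 _ hp)
    rwa [nn_self] at h2
  -- the point
  have hopen : IsOpen (cl z' S' ∩ sh s ⁻¹' cl z' S') :=
    (isOpen_cl z' S').inter ((isOpen_cl z' S').preimage (continuous_sh s))
  have hne : (cl z' S' ∩ sh s ⁻¹' cl z' S').Nonempty := by
    let x : ZZ H G := fun h a n =>
      if h = κ then (if (κ, a) ∈ B then z' κ a n else z' κ (g * a) n) else z' h a n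
    refine ⟨x, ?_, ?_⟩
    · rintro ⟨h, a, n⟩ hp
      change x h a n = z' h a n
      have h1 : (h, a) ∈ B := Finset.mem_coe.1 (hS'B _ hp)
      by_cases hh : h = κ
      · subst hh
        simp [x, h1]
      · simp [x, hh]
    · rintro ⟨h, a, n⟩ hp
      change x h ((s h)⁻¹ * a) n = z' h a n
      have h1 : (h, a) ∈ B := Finset.mem_coe.1 (hS'B _ hp)
      by_cases hh : h = κ
      · subst hh
        have e1 : s h = g := by simp [s]
        have h2 : (h, g⁻¹ * a) ∉ B := fun h3 => hg' a (g⁻¹ * a) h1 h3 (by simp)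
        simp [x, e1, h2]
      · have e1 : s h = 1 := by simp [s, Pi.mulSingle_eq_of_ne hh]
        simp [x, hh, e1]
  obtain ⟨x, ⟨hx1, hx2⟩, c1, c2, c3, c4, c5, c6, c7⟩ := exists_of_res
    (L1.and (hα.and ((ev_nn R hα).and (hUe'.and ((ev_nn R hUe').and ((ev_sh s hUe').and
      (ev_sh s (ev_nn T2 L2))))))) ) hopen hne
  have hxR : nn R x ∈ cl z' S' := by
    intro q hq
    have h4 : (q.1, q.2.1, q.2.2) ∉ R := fun h5 => hRB q h5 (hS'B q hq)
    rw [nn_notMem h4]
    exact hx1 q hq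
  have d1 : x ∈ D := c4.2 (hS'U hx1)
  have d2 : nn R x ∈ D := c5.2 (hS'U hxR)
  have d3 : sh s x ∈ D := c6.2 (hS'U hx2)
  have e1 : θ (nn R x) k = θ x k := he.injective (c1 hx1)
  have e2 : F (θ (sh s x) k) (θ x k) := c2 d1.1 g k
  have e3 : F (θ (sh s (nn R x)) k) (θ (nn R x) k) := c3 d2.1 g k
  have hmem : nn T2 (sh s x) ∈ cl (nn T z') S' := by
    rintro ⟨h, a, n⟩ hp
    change nn T2 (sh s x) h a n = nn T z' h a n
    have h1 : (h, a) ∈ B := Finset.mem_coe.1 (hS'B _ hp)
    have h2 : sh s x h a n = z' h a n := hx2 _ hp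
    by_cases hh : h = κ
    · subst hh
      have h3 : ((h, a, n) : H × G × ℕ) ∈ T2 := ⟨rfl, h1⟩
      have h4 : ((h, a, n) : H × G × ℕ) ∈ T := rfl
      rw [nn_mem h3, nn_mem h4, h2]
    · have h3 : ((h, a, n) : H × G × ℕ) ∉ T2 := fun h5 => hh h5.1
      have h4 : ((h, a, n) : H × G × ℕ) ∉ T := fun h5 => hh h5
      rw [nn_notMem h3, nn_notMem h4, h2]
  have e4 : θ (nn T1 (nn T2 (sh s x))) k = θ (nn T2 (sh s x)) k := he.injective (c7 hmem)
  rw [nn_nn, hT12] at e4
  apply d3.2
  rw [e4, ← hshR]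
  rw [e1] at e3
  exact hF.trans e2 (hF.symm e3)

/-- The nonsmooth case: the double jump of `E₀` does not reduce to a jump of a countable Borel
equivalence relation. -/
theorem nonsmooth_core [Infinite G] [Infinite H] (F : Y → Y → Prop) (hF : Equivalence F)
    (hFb : MeasurableSet {p : Y × Y | F p.1 p.2}) (hFc : ∀ y, {z | F y z}.Countable)
    (θ : ZZ H G → K → Y) (hθ : Measurable θ)
    (hred : ∀ x y, GJump H (GJump G Ev) x y ↔ GJump K F (θ x) (θ y)) : False := by
  classical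
  have hα := alpha F hF hFb θ hθ fun x y h => (hred x y).1 h
  have hθk : ∀ k, Measurable fun x => θ x k := fun k => (measurable_pi_apply k).comp hθ
  let Q : Finset H → Set (ZZ H G) := fun A => {x | ∀ h ∉ A, ∀ g : G, ∀ k : K,
      F (θ (sh (Pi.mulSingle h g) x) k) (θ x k)}
  have hQ : ∀ A, MeasurableSet (Q A) := by
    intro A
    have h1 : Q A = ⋂ h : H, ⋂ (_ : h ∉ A), ⋂ g : G, ⋂ k : K,
        {x | F (θ (sh (Pi.mulSingle h g) x) k) (θ x k)} := by
      ext x
      simp [Q]
    rw [h1]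
    refine MeasurableSet.iInter fun h => MeasurableSet.iInter
      fun _ => MeasurableSet.iInter fun g => MeasurableSet.iInter fun k => ?_
    exact measurableSet_rel F hFb ((hθk k).comp (continuous_sh _).measurable) (hθk k)
  obtain ⟨A, z, S, -, hA⟩ := exists_piece Q hQ isOpen_univ ⟨fun _ _ _ => true, mem_univ _⟩ (by
    filter_upwards [hα] with x hx _
    exact hx)
  obtain ⟨κ, hκ⟩ := Infinite.exists_notMem_finset (A ∪ S.image Prod.fst)
  have hκA : κ ∉ A := fun h => hκ (Finset.mem_union_left _ h)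
  have hκS : ∀ p ∈ S, p.1 ≠ κ := fun p hp h => hκ (Finset.mem_union_right _
    (Finset.mem_image.2 ⟨p, hp, h⟩))
  have h1 : ∀ᶠ x in residual (ZZ H G), ∀ k : K, x ∈ cl z S →
      F (θ x k) (θ (nn {p | p.1 = κ} x) k) := by
    rw [eventually_countable_forall]
    intro k
    refine claim F hF hFb hFc θ hθ (fun x y h => (hred x y).1 h) z S κ hκS ?_ k
    filter_upwards [hA] with x hx hxS g k'
    exact hx hxS κ hκA g k'
  obtain ⟨x, hx, hx1, hx2⟩ := exists_of_res (h1.and (generic_not_rel' κ))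
    (isOpen_cl z S) ⟨z, mem_cl_self z S⟩
  apply hx2
  rw [hred]
  refine ⟨1, fun k => ?_⟩
  rw [inv_one, one_mul]
  exact hx1 k hx

end

end Pool.Agent.W6h79.Jump
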