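import Mathlib
import Pool.Agent.W6h79.Jump.Core

set_option autoImplicit false
set_option linter.unusedSectionVars false

open Set Filter Topology MeasureTheory

namespace Pool.Agent.W6h79.Jump

section

variable {G H : Type} [Group G] [Countable G] [Countable H] [TopologicalSpace G]
  [DiscreteTopology G] [MeasurableSpace G] [BorelSpace G] [DecidableEq H]

instance baireP : BaireSpace (H → G) := by
  have : PolishSpace G := inferInstance
  have : TopologicalSpace.IsCompletelyMetrizableSpace (H → G) :=
    TopologicalSpace.IsCompletelyMetrizableSpace.pi_countable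
  infer_instance

theorem continuous_act2 : Continuous (fun p : (H → G → Bool) × (H → G) => act p.2 p.1) := by
  refine continuous_pi fun h => continuous_pi fun g => ?_
  rw [continuous_iff_continuousAt]
  rintro ⟨x0, γ0⟩
  have h1 : ContinuousAt (fun p : (H → G → Bool) × (H → G) => p.1 h ((γ0 h)⁻¹ * g)) (x0, γ0) := by
    have hc : Continuous (fun p : (H → G → Bool) × (H → G) => p.1 h ((γ0 h)⁻¹ * g)) := by
      fun_prop
    exact hc.continuousAt
  refine h1.congr ?_
  have h2 : ∀ᶠ p : (H → G → Bool) × (H → G) in 𝓝 (x0, γ0), p.2 h = γ0 h := by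
    have hc : Continuous fun p : (H → G → Bool) × (H → G) => p.2 h :=
      (continuous_apply h).comp continuous_snd
    exact ((isOpen_discrete ({γ0 h} : Set G)).preimage hc).mem_nhds (by simp)
  filter_upwards [h2] with p hp
  simp only [act, hp]

/-- The points at which `f` is invariant under all the moves outside of the finite set `A`. -/
def QA (f : (H → G → Bool) → ℝ) (A : Finset H) : Set (H → G → Bool) :=
  {x | ∀ h ∉ A, ∀ g : G, f (act (Pi.mulSingle h g) x) = f x}

theorem measurable_QA (f : (H → G → Bool) → ℝ) (hf : Measurable f) (A : Finset H) :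
    MeasurableSet (QA f A) := by
  have : QA f A = ⋂ h : H, ⋂ (_ : h ∉ A), ⋂ g : G,
      {x | f (act (Pi.mulSingle h g) x) = f x} := by
    ext x
    simp [QA]
  rw [this]
  refine MeasurableSet.iInter fun h => MeasurableSet.iInter fun _ => MeasurableSet.iInter fun g => ?_
  exact measurableSet_eq_fun (hf.comp (continuous_act _).measurable) hf

theorem exists_good (f : (H → G → Bool) → ℝ) (hf : Measurable f)
    (hc : ∀ x, (range fun γ : H → G => f (act γ x)).Countable) :
    ∃ (A : Finset H) (z : H → G → Bool) (S : Finset (H × G)),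
      ∀ᶠ x in residual (H → G → Bool), x ∈ cyl z S → x ∈ QA f A := by
  have hmeas : MeasurableSet {p : (H → G → Bool) × (H → G) | ¬ ∃ A : Finset H,
      act p.2 p.1 ∈ QA f A} := by
    have h1 : {p : (H → G → Bool) × (H → G) | ¬ ∃ A : Finset H, act p.2 p.1 ∈ QA f A} =
        (⋃ A : Finset H, (fun p : (H → G → Bool) × (H → G) => act p.2 p.1) ⁻¹' (QA f A))ᶜ := by
      ext p
      simp
    rw [h1]
    exact (MeasurableSet.iUnion fun A => continuous_act2.measurable (measurable_QA f hf A)).compl
  have h2 : ∀ x : H → G → Bool, IsMeagre {γ : H → G | (x, γ) ∈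
      {p : (H → G → Bool) × (H → G) | ¬ ∃ A : Finset H, act p.2 p.1 ∈ QA f A}} := by
    intro x
    have hm : Measurable fun γ : H → G => f (act γ x) := by
      have h3 : Continuous fun γ : H → G => act γ x :=
        continuous_act2.comp (continuous_const.prodMk continuous_id)
      exact hf.comp h3.measurable
    have h4 := locally_constant _ hm (hc x)
    rw [IsMeagre]
    filter_upwards [h4] with γ hγ
    obtain ⟨A, hA⟩ := hγ
    intro hcon
    refine hcon ⟨A, fun h hh g => ?_⟩
    have h5 := hA h hh g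
    rw [act_mul] at h5
    exact h5
  have h3 := Pool.Agent.H65R4.ku_borel hmeas.baireMeasurableSet h2
  have hne : ∃ γ : H → G, IsMeagre {x : H → G → Bool | (x, γ) ∈
      {p : (H → G → Bool) × (H → G) | ¬ ∃ A : Finset H, act p.2 p.1 ∈ QA f A}} := by
    obtain ⟨γ, _, hγ⟩ := (dense_of_mem_residual h3).inter_open_nonempty univ isOpen_univ
      ⟨1, mem_univ _⟩
    exact ⟨γ, hγ⟩
  obtain ⟨γ, hγ⟩ := hne
  have h4 : ∀ᶠ x in residual (H → G → Bool), ∃ A : Finset H, x ∈ QA f A := by
    have h5 : ∀ᶠ x in residual (H → G → Bool), ∃ A : Finset H, act γ x ∈ QA f A := by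
      rw [IsMeagre] at hγ
      filter_upwards [hγ] with x hx
      by_contra hcon
      exact hx hcon
    have h6 := ev_act γ⁻¹ h5
    filter_upwards [h6] with x hx
    rwa [← act_mul, mul_inv_cancel, act_one] at hx
  have h5 : ∃ A : Finset H, ¬ IsMeagre (QA f A) := by
    by_contra hcon
    push Not at hcon
    have h6 : IsMeagre (⋃ A : Finset H, QA f A) := isMeagre_iUnion hcon
    rw [IsMeagre] at h6
    obtain ⟨x, _, hx⟩ := exists_of_residual (h4.and h6) isOpen_univ ⟨fun _ _ => true, mem_univ _⟩
    obtain ⟨⟨A, hA⟩, hx2⟩ := hx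
    exact hx2 (mem_iUnion.2 ⟨A, hA⟩)
  obtain ⟨A, hA⟩ := h5
  obtain ⟨U, hU, hUe⟩ := (measurable_QA f hf A).baireMeasurableSet.residualEq_isOpen
  rcases U.eq_empty_or_nonempty with rfl | ⟨z, hz⟩
  · exfalso
    apply hA
    rw [IsMeagre]
    filter_upwards [hUe] with x hx
    have h7 : (x ∈ QA f A) = (x ∈ (∅ : Set (H → G → Bool))) := hx
    intro h8
    rw [h7] at h8
    exact h8
  · obtain ⟨S, hS⟩ := exists_cyl hU hz
    refine ⟨A, z, S, ?_⟩
    filter_upwards [hUe] with x hx hxS
    have h7 : (x ∈ QA f A) = (x ∈ U) := hx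
    rw [h7]
    exact hS hxS

/-- The set where the negation at `k` moves the value from below `q` to above `q` is meagre in a
cylinder where `f` is invariant under the moves at `k`. -/
theorem meagre_below [Infinite G] (f : (H → G → Bool) → ℝ) (hf : Measurable f) (k : H) (q : ℝ)
    (z : H → G → Bool) (S : Finset (H × G)) 
    (hinv : ∀ᶠ x in residual (H → G → Bool), x ∈ cyl z S → ∀ g : G,
      f (act (Pi.mulSingle k g) x) = f x) :
    IsMeagre {x | x ∈ cyl z S ∧ f x < q ∧ ¬ f (neg k x) < q} := by
  set D : Set (H → G → Bool) := {x | x ∈ cyl z S ∧ f x < q ∧ ¬ f (neg k x) < q} with hD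
  have hDm : MeasurableSet D := by
    refine (isOpen_cyl z S).measurableSet.inter ((measurableSet_lt hf measurable_const).inter ?_)
    exact (measurableSet_lt (hf.comp (continuous_neg' k).measurable) measurable_const).compl
  obtain ⟨U, hU, hUe⟩ := hDm.baireMeasurableSet.residualEq_isOpen
  have hUe' : ∀ᶠ x in residual (H → G → Bool), (x ∈ D ↔ x ∈ U) := by
    filter_upwards [hUe] with x hx
    exact iff_of_eq hx
  rcases U.eq_empty_or_nonempty with rfl | ⟨w, hw⟩
  · rw [IsMeagre]
    filter_upwards [hUe'] with x hx h8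
    exact (hx.1 h8)
  · exfalso
    classical
    obtain ⟨T, hT⟩ := exists_cyl hU hw
    obtain ⟨g, hg⟩ := Infinite.exists_notMem_finset
      ((T ×ˢ T).image fun p => p.1.2 * p.2.2⁻¹)
    have hg' : ∀ a b : G, (k, a) ∈ T → (k, b) ∈ T → g * b ≠ a := by
      intro a b ha hb hab
      apply hg
      refine Finset.mem_image.2 ⟨((k, a), (k, b)), Finset.mem_product.2 ⟨ha, hb⟩, ?_⟩
      simp [← hab]
    -- generic points
    have h1 := ev_act (G := G) (Pi.mulSingle k g) (ev_neg k hUe')
    have hopen : IsOpen (cyl w T ∩ (fun x => neg k (act (Pi.mulSingle k g) x)) ⁻¹' cyl w T) :=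
      (isOpen_cyl w T).inter ((isOpen_cyl w T).preimage
        ((continuous_neg' k).comp (continuous_act _)))
    have hne : (cyl w T ∩ (fun x => neg k (act (Pi.mulSingle k g) x)) ⁻¹' cyl w T).Nonempty := by
      classical
      let x : H → G → Bool := fun h a =>
        if h = k then (if (k, a) ∈ T then w k a else !(w k (g * a))) else w h a
      refine ⟨x, ?_, ?_⟩
      · rintro ⟨h, a⟩ hp
        by_cases hh : h = k
        · subst hh
          simp [x, hp]
        · simp [x, hh]
      · rintro ⟨h, a⟩ hp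
        change neg k (act (Pi.mulSingle k g) x) h a = w h a
        by_cases hh : h = k
        · subst hh
          rw [neg_same]
          have h2 : (h, g⁻¹ * a) ∉ T := by
            intro h3
            exact hg' a (g⁻¹ * a) hp h3 (by simp)
          simp [act, x, h2]
        · rw [neg_ne hh]
          simp [act, x, hh]
    obtain ⟨x, ⟨hx1, hx2⟩, hx3, hx4, hx5⟩ := exists_of_residual (hUe'.and (h1.and hinv)) hopen hne
    have a1 : x ∈ D := hx3.2 (hT hx1)
    have a2 : neg k (act (Pi.mulSingle k g) x) ∈ D := hx4.2 (hT hx2)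
    obtain ⟨b1, b2, b3⟩ := a1
    obtain ⟨c1, c2, c3⟩ := a2
    rw [neg_neg', hx5 b1 g] at c3
    exact c3 b2

theorem core [Group H] [Infinite G] [Infinite H] (f : (H → G → Bool) → ℝ) (hf : Measurable f)
    (hc : ∀ x, (range fun γ : H → G => f (act γ x)).Countable)
    (hi : ∀ x y, f x = f y → GJump H (GJump G (Eq : Bool → Bool → Prop)) x y) : False := by
  obtain ⟨A, z, S, hA⟩ := exists_good f hf hc
  obtain ⟨k, hk⟩ := Infinite.exists_notMem_finset (A ∪ S.image Prod.fst)
  have hkA : k ∉ A := fun h => hk (Finset.mem_union_left _ h)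
  have hkS : ∀ g, (k, g) ∉ S := fun g h => hk (Finset.mem_union_right _
    (Finset.mem_image.2 ⟨_, h, rfl⟩))
  have hinv : ∀ᶠ x in residual (H → G → Bool), x ∈ cyl z S → ∀ g : G,
      f (act (Pi.mulSingle k g) x) = f x := by
    filter_upwards [hA] with x hx hxz g
    exact hx hxz k hkA g
  have hneg : ∀ x ∈ cyl z S, neg k x ∈ cyl z S := by
    rintro x hx ⟨h, g⟩ hp
    have hh : h ≠ k := by
      rintro rfl
      exact hkS g hp
    change neg k x h g = z h g
    rw [neg_ne hh]
    exact hx (h, g) hp
  have h1 : ∀ᶠ x in residual (H → G → Bool), ∀ q : ℚ,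
      ¬ (x ∈ cyl z S ∧ f x < q ∧ ¬ f (neg k x) < q) := by
    rw [eventually_countable_forall]
    intro q
    exact meagre_below f hf k q z S hinv
  have h2 := ev_neg k h1
  obtain ⟨x, hx, hx1, hx2, hx3⟩ := exists_of_residual (h1.and (h2.and (generic_not_rel k)))
    (isOpen_cyl z S) ⟨z, mem_cyl_self z S⟩
  apply hx3
  apply hi
  by_contra hne
  rcases lt_or_gt_of_ne hne with hlt | hlt
  · obtain ⟨q, hq1, hq2⟩ := exists_rat_btwn hlt
    exact hx1 q ⟨hx, hq1, not_lt.2 hq2.le⟩
  · obtain ⟨q, hq1, hq2⟩ := exists_rat_btwn hlt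
    refine hx2 q ⟨hneg x hx, hq1, ?_⟩
    rw [neg_neg']
    exact not_lt.2 hq2.le

end

end Pool.Agent.W6h79.Jump
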