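import Mathlib
import Pool.Agent.W6h79.Jump.Main

set_option autoImplicit false
set_option linter.unusedSectionVars false

open Set Filter Topology MeasureTheory

namespace Pool.Agent.W6h79.Jump

/-- the jump of equality on `W` has countable classes -/
theorem jump_eq_countable {K W : Type} [Group K] [Countable K] (α : K → W) :
    {β : K → W | GJump K (Eq : W → W → Prop) α β}.Countable := by
  have h : {β : K → W | GJump K (Eq : W → W → Prop) α β} ⊆
      range fun (k : K) (l : K) => α (k⁻¹ * l) := by
    rintro β ⟨k, hk⟩
    exact ⟨k, funext hk⟩
  exact (countable_range _).mono h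

/-- The smooth case: the double jump of equality on `{0,1}` does not reduce to a relation with
countable classes. -/
theorem not_countable_classes {G H : Type} [Group G] [Group H] [Countable G] [Countable H]
    [Infinite G] [Infinite H] {Y : Type} [MeasurableSpace Y] [StandardBorelSpace Y]
    (F : Y → Y → Prop) (hFrefl : ∀ y, F y y) (hF : ∀ y, {z | F y z}.Countable)
    (f : (H → G → Bool) → Y) (hf : Measurable f)
    (hred : ∀ x y, GJump H (GJump G (Eq : Bool → Bool → Prop)) x y ↔ F (f x) (f y)) : False := by
  classical
  let _ : TopologicalSpace G := ⊥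
  have : DiscreteTopology G := ⟨rfl⟩
  let _ : MeasurableSpace G := borel G
  have : BorelSpace G := ⟨rfl⟩
  obtain ⟨e, he⟩ := MeasureTheory.exists_measurableEmbedding_real Y
  refine core (G := G) (H := H) (fun x => e (f x)) (he.measurable.comp hf) ?_ ?_
  · intro x
    refine ((hF (f x)).image e).mono ?_
    rintro _ ⟨γ, rfl⟩
    exact ⟨f (act γ x), (hred _ _).1 (act_rel γ x), rfl⟩
  · intro x y hxy
    have h1 : f x = f y := he.injective hxy
    rw [hred, ← h1]
    exact hFrefl _

end Pool.Agent.W6h79.Jump
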